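import Mathlib
import Pool.Agent.W973.IP.Defs

set_option autoImplicit false

/-! Project IP: `Bad` is open. -/

namespace Pool.Agent.W311.IP

open Pool.Agent.W973.IP MvPolynomial Topology Filter

theorem aux {V : Type} [NormedAddCommGroup V] [ProperSpace V] (g : ℝ → ℝ → V → V → ℝ)
    (hcont : Continuous fun p : ℝ × ℝ × V × V => g p.1 p.2.1 p.2.2.1 p.2.2.2)
    (h2 : ∀ c₀ K : ℝ, 0 < c₀ → ∃ U : ℝ, ∀ (c e : ℝ) (u : V),
      c₀ ≤ c → 0 ≤ e → e ≤ K → U ≤ ‖u‖ → g c e u 0 < 0) :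
    IsOpen {p : ℝ × ℝ | 0 < p.1 ∧ 0 < p.2 ∧ ∀ u, ∃ w, g p.1 p.2 u w < p.1} := by
  rw [isOpen_iff_mem_nhds]
  rintro ⟨c0, e0⟩ ⟨hc0, he0, hbad⟩
  simp only at hc0 he0 hbad
  obtain ⟨U, hU⟩ := h2 (c0 / 2) (e0 + 1) (by positivity)
  have hK : IsCompact (Metric.closedBall (0 : V) U) := isCompact_closedBall _ _
  have key : ∀ᶠ p : ℝ × ℝ in 𝓝 (c0, e0), ∀ u ∈ Metric.closedBall (0 : V) U,
      ∃ w : V, g p.1 p.2 u w < p.1 := by
    apply hK.eventually_forall_of_forall_eventually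
    intro u _
    obtain ⟨w, hw⟩ := hbad u
    have hc1 : Continuous fun z : (ℝ × ℝ) × V => g z.1.1 z.1.2 z.2 w :=
      hcont.comp (by fun_prop : Continuous fun z : (ℝ × ℝ) × V => (z.1.1, z.1.2, z.2, w))
    have hc2 : Continuous fun z : (ℝ × ℝ) × V => z.1.1 := by fun_prop
    have hev : ∀ᶠ z : (ℝ × ℝ) × V in 𝓝 ((c0, e0), u), g z.1.1 z.1.2 z.2 w < z.1.1 :=
      (isOpen_lt hc1 hc2).mem_nhds hw
    exact hev.mono fun z hz => ⟨w, hz⟩
  have e1 : ∀ᶠ p : ℝ × ℝ in 𝓝 (c0, e0), c0 / 2 < p.1 :=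
    (isOpen_lt continuous_const continuous_fst).mem_nhds (by simp only [Set.mem_setOf_eq]; linarith)
  have e2 : ∀ᶠ p : ℝ × ℝ in 𝓝 (c0, e0), 0 < p.2 :=
    (isOpen_lt continuous_const continuous_snd).mem_nhds he0
  have e3 : ∀ᶠ p : ℝ × ℝ in 𝓝 (c0, e0), p.2 < e0 + 1 :=
    (isOpen_lt continuous_snd continuous_const).mem_nhds (by simp only [Set.mem_setOf_eq]; linarith)
  filter_upwards [key, e1, e2, e3] with p k1 k2 k3 k4
  refine ⟨by linarith, k3, ?_⟩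
  intro u
  by_cases hu : u ∈ Metric.closedBall (0 : V) U
  · exact k1 u hu
  · refine ⟨0, ?_⟩
    have : U ≤ ‖u‖ := by
      simp only [Metric.mem_closedBall, dist_zero_right, not_le] at hu
      exact hu.le
    have := hU p.1 p.2 u k2.le k3.le k4.le this
    linarith

theorem bop (h1 : S_DER) (h2 : S_UCO) : S_BOP := by
  intro n P a hP
  have hcont := (h1 n P a).1
  have h2' := h2 n P a hP
  show IsOpen {p : ℝ × ℝ | 0 < p.1 ∧ 0 < p.2 ∧ ∀ u, ∃ w, G P a p.1 p.2 u w < p.1}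
  generalize G P a = g at hcont h2' ⊢
  exact aux g hcont h2'

end Pool.Agent.W311.IP
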